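import Mathlib
import Pool.Agent.W845.CP.Fin7
import Pool.Agent.W880.CP.Step
import Pool.Agent.W880.CP.NE
import Pool.Agent.W880.CP.Chain
import Pool.Agent.W880.CP.Reg
import Pool.Agent.W880.CP.TR
import Pool.Agent.W346.CP.Path
import Pool.Agent.W346.CP.PB
import Pool.Agent.W346.CP.Conn
import Pool.Agent.W397.CP.Seq
import Pool.Agent.W397.CP.Hup
import Pool.Agent.W397.CP.Conn2
import Pool.Agent.W11.CP.HLow
import Pool.Agent.W565.CP.Vd
import Pool.Agent.W565.CP.Out
import Pool.Agent.W565.CP.Upw
import Pool.Agent.W565.CP.Start
import Pool.Agent.W565.CP.Graph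
import Pool.Agent.W148.CP.Tune
import Pool.Agent.W817.CPU.Ups

/-!
# A critical contact process surviving globally but not locally

There is a locally finite connected graph `G` with equal critical rates for global and local
survival of the contact process, on which the contact process at the common critical rate
survives globally but dies out locally.

The model (`Pool.Agent.W845.CP.PL`, `Pool.Agent.W845.CP.Model`): `contactLaw G lam o` is the law
of the sequence of (infected set, jump time) of the contact process with infection rate `lam`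
started from `{o}`: from a nonempty finite set `A` every `x ∈ A` recovers at rate `1` and every
`x ∈ A` infects every neighbour `y ∉ A` at rate `lam`.
-/

open MeasureTheory

namespace Pool.Agent.Results.MP_2b201f_pr.CriticalGlobalNotLocal

open Pool.Agent.W845.CP

theorem result :
    ∃ (V : Type) (_ : DecidableEq V) (_ : Countable V) (G : SimpleGraph V)
      (_ : G.LocallyFinite) (o : V), G.Connected ∧
      (∀ lam : ℝ, 0 < lam → NonExplosive G lam o) ∧
      lamGlob G o = 1 / 20 ∧ lamLoc G o = 1 / 20 ∧
      SurvivesGlobally G (1 / 20) o ∧ ¬ SurvivesLocally G (1 / 20) o := by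
  have hseq := Pool.Agent.W397.CPSeq.seq
  have hpath := Pool.Agent.W346.CP.path Pool.Agent.W880.CP.green
  have hreg := Pool.Agent.W880.CP.reghit
  have hhlow := Pool.Agent.W11.CP.hlow hseq
  have hhup := Pool.Agent.W397.CPHup.hup hseq
  have hpb := Pool.Agent.W346.CP.pb hpath
  have hvd := Pool.Agent.W565.CP.vd
  have hconn1 := Pool.Agent.W346.CP.conn1 hpath hpb
  have hconn2 := Pool.Agent.W397.CPConn2.conn2 hpath hpb
  exact final
    { step := Pool.Agent.W880.CP.step
      occ1 := Pool.Agent.W880.CP.occ1
      occ2 := Pool.Agent.W880.CP.occ2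
      ne := Pool.Agent.W880.CP.ne
      chain := Pool.Agent.W880.CP.chain
      reghit := hreg
      tr := Pool.Agent.W880.CP.tr hreg
      path := hpath
      seq := hseq
      ups := Pool.Agent.W817.CPU.ups hhup hconn1 hconn2 hseq hpath
      out := Pool.Agent.W565.CP.out hreg hpath hpb hseq hhlow hvd
      upw := Pool.Agent.W565.CP.upw hreg hpath hpb hseq hhlow hvd
      start := Pool.Agent.W565.CP.start
      nex := Pool.Agent.W565.CP.nex
      graph := Pool.Agent.W565.CP.graph
      sub := Pool.Agent.W565.CP.sub } (Pool.Agent.W148.CP.tune hpath hseq)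

end Pool.Agent.Results.MP_2b201f_pr.CriticalGlobalNotLocal
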